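import Mathlib

/-!
# Enlarging a regular polygon by at most `102 N ^ 3` reflection moves

A legal move replaces the position of one piece by its mirror image through another piece. For every
`N > 6` the pieces at the vertices of a regular `N`-gon reach the vertices of a larger regular
`N`-gon by at most `102 N ^ 3` legal moves. This is a positive answer to the question whether there
is a polynomial bound.

The piece `0` never moves. Two jumps of the piece `i`, over the piece `0` and over the piece `j`,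
translate it by `2 (p_j - p_0)`.

`N` odd. Let `x` be a primitive root of unity, `p_k = x ^ k` and `α = (1 + x ^ 2)⁻¹ (1 + x) ^ 2`, a
unit congruent to one modulo two. We move the piece `k` to `T_k = α x ^ k + 1 - α`, in the order of
`k`. With `m_k = x ^ k / (1 + x ^ 2)` one has `p_k = m_k + m_(k+2)` and
`T_k = p_k + 2 m_(k+1) - 2 m_1`. The matrix of the multiplication by `α` in the basis `x ^ k - 1` has
leading minors `1, 1, 1, 5, -5, 1, 1, 9, -9, 1, ...` or `1, 3, -3, 1, 1, 7, -7, 1, ...`, and so the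
pieces can arrive one after the other, except that every fourth step is replaced by a step in which
three pieces arrive together (`block`); in this step two of them first walk by leapfrogging.

`N` even. The antipodal pieces are redundant: first the pieces `k < N / 2` are moved with the help of
the other half, and then the pieces of the other half are moved with the help of the pieces which
have arrived. The factor is `(1 + x) ^ 2 / (1 + x ^ 2)` for a root of unity `x` of odd order at least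
five if there is one, `3 + 2 √2` if `8 ∣ N`, and `7 + 4 √3` for `N = 12`.
-/

set_option autoImplicit false
set_option linter.unusedSectionVars false
set_option linter.unusedVariables false

open Finset Function

namespace Pool.Agent.Results.MP_e50cbd_co.CubicBound

/-- a legal move: the piece `i` jumps over the piece `j` -/
def Move {N : ℕ} (p q : Fin N → ℂ) : Prop :=
  ∃ i j : Fin N, i ≠ j ∧ q = update p i (2 * p j - p i)

/-- `q` is reached from `p` by `n` legal moves -/
inductive Reach {N : ℕ} : ℕ → (Fin N → ℂ) → (Fin N → ℂ) → Prop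
  | refl (p : Fin N → ℂ) : Reach 0 p p
  | step {n : ℕ} {p q r : Fin N → ℂ} (h : Reach n p q) (m : Move q r) : Reach (n + 1) p r

/-- the vertices of a regular `N`-gon -/
noncomputable def polygon (N : ℕ) (k : Fin N) : ℂ :=
  Complex.exp (2 * Real.pi * Complex.I * (k : ℕ) / N)

/-- the pieces are at the vertices of a larger regular `N`-gon -/
def Larger {N : ℕ} (q : Fin N → ℂ) : Prop :=
  ∃ c w : ℂ, 1 < ‖w‖ ∧ Set.range q = Set.range fun k => c + w * polygon N k

/-! ### configurations indexed by natural numbers -/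

/-- a move for configurations which are indexed by natural numbers -/
def Mv (N : ℕ) (p q : ℕ → ℂ) : Prop :=
  ∃ i j : ℕ, i < N ∧ j < N ∧ i ≠ j ∧ q = update p i (2 * p j - p i)

lemma Mv.symm {N : ℕ} {p q : ℕ → ℂ} (h : Mv N p q) : Mv N q p := by
  obtain ⟨i, j, hi, hj, hij, rfl⟩ := h
  refine ⟨i, j, hi, hj, hij, ?_⟩
  rw [update_self, update_of_ne (Ne.symm hij), update_idem]
  have : 2 * p j - (2 * p j - p i) = p i := by ring
  rw [this, update_eq_self]

/-- at most `n` moves -/
inductive W (N : ℕ) : ℕ → (ℕ → ℂ) → (ℕ → ℂ) → Prop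
  | refl (n : ℕ) (p : ℕ → ℂ) : W N n p p
  | step {n : ℕ} {p q r : ℕ → ℂ} (h : W N n p q) (m : Mv N q r) : W N (n + 1) p r

lemma W.mono {N n m : ℕ} {p q : ℕ → ℂ} (h : W N n p q) (hnm : n ≤ m) : W N m p q := by
  induction h generalizing m with
  | refl n p => exact W.refl m p
  | step h mv ih =>
    obtain ⟨m', rfl⟩ : ∃ m', m = m' + 1 := ⟨m - 1, by omega⟩
    exact W.step (ih (by omega)) mv

lemma W.trans {N n m : ℕ} {p q r : ℕ → ℂ} (h : W N n p q) (h' : W N m q r) : W N (n + m) p r := by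
  induction h' with
  | refl m q => exact h.mono (by omega)
  | step h' mv ih => exact W.step (ih h) mv

lemma W.single {N : ℕ} {p q : ℕ → ℂ} (h : Mv N p q) : W N 1 p q := W.step (W.refl 0 p) h

lemma W.symm {N n : ℕ} {p q : ℕ → ℂ} (h : W N n p q) : W N n q p := by
  induction h with
  | refl n p => exact W.refl n p
  | step h mv ih =>
    have := (W.single mv.symm).trans ih
    exact this.mono (by omega)

lemma W.jump {N : ℕ} {p : ℕ → ℂ} {i j : ℕ} (hi : i < N) (hj : j < N) (hij : i ≠ j) :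
    W N 1 p (update p i (2 * p j - p i)) := W.single ⟨i, j, hi, hj, hij, rfl⟩

lemma W.reach {N n : ℕ} {p q : ℕ → ℂ} (h : W N n p q) :
    ∃ m ≤ n, Reach m (fun k : Fin N => p k) (fun k : Fin N => q k) := by
  induction h with
  | refl n p => exact ⟨0, Nat.zero_le _, Reach.refl _⟩
  | step h mv ih =>
    obtain ⟨m, hm, hr⟩ := ih
    refine ⟨m + 1, by omega, Reach.step hr ?_⟩
    obtain ⟨i, j, hi, hj, hij, rfl⟩ := mv
    refine ⟨⟨i, hi⟩, ⟨j, hj⟩, by simpa [Fin.ext_iff] using hij, ?_⟩
    funext k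
    by_cases hk : (k : ℕ) = i
    · have : k = ⟨i, hi⟩ := Fin.ext hk
      subst this
      simp
    · have h1 : k ≠ ⟨i, hi⟩ := fun e => hk (by rw [e])
      rw [update_of_ne h1, update_of_ne hk]

/-! ### translations of one piece -/

/-- the piece `i` can be translated by `2 w` with the help of the other pieces of `p` -/
def Tr (N : ℕ) (p : ℕ → ℂ) (i B : ℕ) (w : ℂ) : Prop :=
  ∀ z : ℂ, W N B (update p i z) (update p i (z + 2 * w))

section
variable {N : ℕ} {p : ℕ → ℂ} {i : ℕ}

lemma Tr.zero : Tr N p i 0 0 := fun z => by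
  rw [mul_zero, add_zero]
  exact W.refl _ _

lemma Tr.mono {B B' : ℕ} {w : ℂ} (h : Tr N p i B w) (hB : B ≤ B') : Tr N p i B' w :=
  fun z => (h z).mono hB

lemma Tr.add {B B' : ℕ} {w w' : ℂ} (h : Tr N p i B w) (h' : Tr N p i B' w') :
    Tr N p i (B + B') (w + w') := fun z => by
  have := (h z).trans (h' (z + 2 * w))
  have e : z + 2 * w + 2 * w' = z + 2 * (w + w') := by ring
  rw [e] at this
  exact this

lemma Tr.neg {B : ℕ} {w : ℂ} (h : Tr N p i B w) : Tr N p i B (-w) := fun z => by
  have := (h (z - 2 * w)).symm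
  have e : z - 2 * w + 2 * w = z := by ring
  rw [e] at this
  have e' : z + 2 * -w = z - 2 * w := by ring
  rw [e']
  exact this

lemma Tr.sub {B B' : ℕ} {w w' : ℂ} (h : Tr N p i B w) (h' : Tr N p i B' w') :
    Tr N p i (B + B') (w - w') := by
  rw [sub_eq_add_neg]
  exact h.add h'.neg

lemma Tr.nsmul {B : ℕ} {w : ℂ} (h : Tr N p i B w) (n : ℕ) : Tr N p i (n * B) (n * w) := by
  induction n with
  | zero => simpa using Tr.zero
  | succ n ih =>
    have := ih.add h
    have e : ((n + 1 : ℕ) : ℂ) * w = n * w + w := by push_cast; ring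
    rw [e, Nat.succ_mul]
    exact this

lemma Tr.sum {B : ℕ} {w : ℕ → ℂ} {n : ℕ} (h : ∀ s < n, Tr N p i B (w s)) :
    Tr N p i (n * B) (∑ s ∈ range n, w s) := by
  induction n with
  | zero => simpa using Tr.zero
  | succ n ih =>
    rw [sum_range_succ, Nat.succ_mul]
    exact (ih fun s hs => h s (by omega)).add (h n (by omega))

lemma Tr.sign {B : ℕ} {w : ℂ} (h : Tr N p i B w) (s : ℕ) : Tr N p i B ((-1) ^ s * w) := by
  rcases Nat.even_or_odd s with h' | h'
  · rw [h'.neg_one_pow, one_mul]; exact h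
  · rw [h'.neg_one_pow, neg_one_mul]; exact h.neg

/-- the basic translations -/
lemma Tr.base (hi : i < N) (hi0 : i ≠ 0) {j : ℕ} (hj : j < N) (hji : j ≠ i) :
    Tr N p i 2 (p j - p 0) := fun z => by
  have h0 : 0 < N := by omega
  have h1 := W.jump (p := update p i z) hi h0 hi0
  have h2 := W.jump (p := update (update p i z) i (2 * update p i z 0 - update p i z i)) hi hj
    (Ne.symm hji)
  have h3 := h1.trans h2
  simp only [update_self, update_idem, update_of_ne hji, update_of_ne (Ne.symm hi0)] at h3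
  have e : 2 * p j - (2 * p 0 - z) = z + 2 * (p j - p 0) := by ring
  rw [e] at h3
  exact h3

/-- using a translation -/
lemma Tr.use {B : ℕ} {w : ℂ} (h : Tr N p i B w) : W N B p (update p i (p i + 2 * w)) := by
  have := h (p i)
  rwa [update_eq_self] at this

/-- a reflection over the piece `0` before -/
lemma Tr.use' {B : ℕ} {w : ℂ} (h : Tr N p i B w) (hi : i < N) (hi0 : i ≠ 0) :
    W N (1 + B) p (update p i (2 * p 0 - p i + 2 * w)) :=
  (W.jump hi (by omega) hi0).trans (h _)

end

/-! ### odd polygons -/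

section odd
variable {N : ℕ} (M : ℕ → ℂ)

/-- the starting position of the piece `k` -/
def P (k : ℕ) : ℂ := M k + M (k + 2)

/-- the final position of the piece `k` -/
def T (k : ℕ) : ℂ := P M k + 2 * M (k + 1) - 2 * M 1

lemma T_zero : T M 0 = P M 0 := by unfold T; ring

/-- the pieces below `a` have arrived -/
noncomputable def cfg (a k : ℕ) : ℂ := if k < a then T M k else P M k

/-- the intermediate configurations -/
noncomputable def conf (h : ℕ) (a b d : ℂ) (k : ℕ) : ℂ :=
  if k < 2 * h then T M k else if k = 2 * h then a else if k = 2 * h + 1 then b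
  else if k = 2 * h + 2 then d else P M k

lemma cfg_conf (h : ℕ) : cfg M (2 * h) =
    conf M h (P M (2 * h)) (P M (2 * h + 1)) (P M (2 * h + 2)) := by
  funext k
  unfold cfg conf
  by_cases h1 : k < 2 * h
  · rw [if_pos h1, if_pos h1]
  · rw [if_neg h1, if_neg h1]
    by_cases h2 : k = 2 * h
    · rw [if_pos h2, h2]
    · rw [if_neg h2]
      by_cases h3 : k = 2 * h + 1
      · rw [if_pos h3, h3]
      · rw [if_neg h3]
        by_cases h4 : k = 2 * h + 2
        · rw [if_pos h4, h4]
        · rw [if_neg h4]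

lemma conf_cfg (h : ℕ) : conf M h (T M (2 * h)) (T M (2 * h + 1)) (T M (2 * h + 2)) =
    cfg M (2 * h + 3) := by
  funext k
  unfold cfg conf
  by_cases h1 : k < 2 * h
  · rw [if_pos h1, if_pos (by omega)]
  · rw [if_neg h1]
    by_cases h2 : k = 2 * h
    · rw [if_pos h2, if_pos (by omega), h2]
    · rw [if_neg h2]
      by_cases h3 : k = 2 * h + 1
      · rw [if_pos h3, if_pos (by omega), h3]
      · rw [if_neg h3]
        by_cases h4 : k = 2 * h + 2
        · rw [if_pos h4, if_pos (by omega), h4]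
        · rw [if_neg h4, if_neg (by omega)]

lemma conf_a (h : ℕ) (a b d : ℂ) : conf M h a b d (2 * h) = a := by
  unfold conf
  rw [if_neg (by omega), if_pos rfl]

lemma conf_b (h : ℕ) (a b d : ℂ) : conf M h a b d (2 * h + 1) = b := by
  unfold conf
  rw [if_neg (by omega), if_neg (by omega), if_pos rfl]

lemma conf_d (h : ℕ) (a b d : ℂ) : conf M h a b d (2 * h + 2) = d := by
  unfold conf
  rw [if_neg (by omega), if_neg (by omega), if_neg (by omega), if_pos rfl]

lemma conf_lt (h : ℕ) (a b d : ℂ) {k : ℕ} (hk : k < 2 * h) : conf M h a b d k = T M k := by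
  unfold conf
  rw [if_pos hk]

lemma conf_ge (h : ℕ) (a b d : ℂ) {k : ℕ} (hk : 2 * h + 3 ≤ k) : conf M h a b d k = P M k := by
  unfold conf
  rw [if_neg (by omega), if_neg (by omega), if_neg (by omega), if_neg (by omega)]

lemma upd_a (h : ℕ) (a b d a' : ℂ) : update (conf M h a b d) (2 * h) a' = conf M h a' b d := by
  funext k
  by_cases hk : k = 2 * h
  · rw [hk, update_self, conf_a]
  · rw [update_of_ne hk]
    unfold conf
    rw [if_neg hk, if_neg hk]

lemma upd_b (h : ℕ) (a b d b' : ℂ) : update (conf M h a b d) (2 * h + 1) b' = conf M h a b' d := by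
  funext k
  by_cases hk : k = 2 * h + 1
  · rw [hk, update_self, conf_b]
  · rw [update_of_ne hk]
    unfold conf
    rw [if_neg hk, if_neg hk]

lemma upd_d (h : ℕ) (a b d d' : ℂ) : update (conf M h a b d) (2 * h + 2) d' = conf M h a b d' := by
  funext k
  by_cases hk : k = 2 * h + 2
  · rw [hk, update_self, conf_d]
  · rw [update_of_ne hk]
    unfold conf
    rw [if_neg hk, if_neg hk]

lemma jump_a (h : ℕ) (hN : 2 * h + 2 < N) (a b d : ℂ) :
    W N 1 (conf M h a b d) (conf M h (2 * d - a) b d) := by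
  have := W.jump (N := N) (p := conf M h a b d) (i := 2 * h) (j := 2 * h + 2) (by omega) hN (by omega)
  rwa [conf_a, conf_d, upd_a] at this

lemma jump_d (h : ℕ) (hN : 2 * h + 2 < N) (a b d : ℂ) :
    W N 1 (conf M h a b d) (conf M h a b (2 * a - d)) := by
  have := W.jump (N := N) (p := conf M h a b d) (i := 2 * h + 2) (j := 2 * h) hN (by omega) (by omega)
  rwa [conf_a, conf_d, upd_d] at this

/-- two pieces walk by leapfrogging -/
lemma walk (h : ℕ) (hN : 2 * h + 2 < N) (a b d : ℂ) (n : ℕ) :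
    W N (2 * n) (conf M h a b d)
      (conf M h (a + 2 * n * (d - a)) b (d + 2 * n * (d - a))) := by
  induction n with
  | zero => simpa using W.refl 0 _
  | succ n ih =>
    have h1 := jump_a M h hN (a + 2 * n * (d - a)) b (d + 2 * n * (d - a))
    have h2 := jump_d M h hN (2 * (d + 2 * n * (d - a)) - (a + 2 * n * (d - a))) b
      (d + 2 * n * (d - a))
    have h3 := (ih.trans h1).trans h2
    have e1 : 2 * (d + 2 * n * (d - a)) - (a + 2 * n * (d - a)) =
        a + 2 * ((n + 1 : ℕ) : ℂ) * (d - a) := by push_cast; ring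
    have e2 : 2 * (a + 2 * ((n + 1 : ℕ) : ℂ) * (d - a)) - (d + 2 * n * (d - a)) =
        d + 2 * ((n + 1 : ℕ) : ℂ) * (d - a) := by push_cast; ring
    rw [e1, e2] at h3
    exact h3.mono (by omega)

/-- alternating sums of starting positions -/
lemma tr_f {Q : ℕ → ℂ} {i : ℕ} (e R : ℕ)
    (hb : ∀ s < 2 * R, Tr N Q i 2 (P M (e + 2 * s) - P M 0)) :
    Tr N Q i (4 * R) (M e - M (e + 4 * R)) := by
  induction R with
  | zero => simpa using Tr.zero
  | succ R ih =>
    have h1 := ih fun s hs => hb s (by omega)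
    have h2 := (hb (2 * R) (by omega)).sub (hb (2 * R + 1) (by omega))
    have h3 := h1.add h2
    have e1 : M e - M (e + 4 * R) + (P M (e + 2 * (2 * R)) - P M 0 -
        (P M (e + 2 * (2 * R + 1)) - P M 0)) = M e - M (e + 4 * (R + 1)) := by
      unfold P
      have a1 : e + 2 * (2 * R) = e + 4 * R := by ring
      have a2 : e + 2 * (2 * R + 1) = e + 4 * R + 2 := by ring
      have a3 : e + 4 * R + 2 + 2 = e + 4 * (R + 1) := by ring
      rw [a1, a2, a3]
      ring
    rw [e1] at h3
    exact h3.mono (by omega)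

/-- alternating sums of final positions -/
lemma tr_z {Q : ℕ → ℂ} {i : ℕ} (h : ℕ) (hb : ∀ l < 2 * h, Tr N Q i 2 (T M l - P M 0)) :
    Tr N Q i (4 * h) (M (2 * h) + M (2 * h + 1) - M 0 - M 1) := by
  induction h with
  | zero => simpa using Tr.zero
  | succ h ih =>
    have h1 := ih fun s hs => hb s (by omega)
    have h2 := (hb (2 * h + 1) (by omega)).sub (hb (2 * h) (by omega))
    have h3 := h1.add h2
    have e1 : M (2 * h) + M (2 * h + 1) - M 0 - M 1 + (T M (2 * h + 1) - P M 0 -
        (T M (2 * h) - P M 0)) = M (2 * (h + 1)) + M (2 * (h + 1) + 1) - M 0 - M 1 := by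
      unfold T P
      have a1 : 2 * (h + 1) = 2 * h + 2 := by ring
      rw [a1]
      ring_nf
    rw [e1] at h3
    exact h3.mono (by omega)

/-- alternating sums of final positions with linear weights -/
lemma tr_zz {Q : ℕ → ℂ} {i : ℕ} (h : ℕ) (hb : ∀ l < 2 * h, Tr N Q i 2 (T M l - P M 0)) :
    Tr N Q i (4 * h * h + 2 * h) (M (2 * h + 1) - M 1 - h * M 0 + h * M 2) := by
  induction h with
  | zero => simpa using Tr.zero
  | succ h ih =>
    have h1 := ih fun s hs => hb s (by omega)
    have h0 := (tr_z M h fun s hs => hb s (by omega)).nsmul 2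
    have h2 := (hb (2 * h + 1) (by omega)).sub ((hb (2 * h) (by omega)).nsmul 2)
    have h3 := (h1.add h0).add h2
    have e1 : M (2 * h + 1) - M 1 - h * M 0 + h * M 2 +
        ((2 : ℕ) : ℂ) * (M (2 * h) + M (2 * h + 1) - M 0 - M 1) +
        (T M (2 * h + 1) - P M 0 - ((2 : ℕ) : ℂ) * (T M (2 * h) - P M 0)) =
        M (2 * (h + 1) + 1) - M 1 - ((h + 1 : ℕ) : ℂ) * M 0 + ((h + 1 : ℕ) : ℂ) * M 2 := by
      unfold T P
      have a1 : 2 * (h + 1) = 2 * h + 2 := by ring
      rw [a1]
      push_cast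
      ring_nf
    rw [e1] at h3
    exact h3.mono (by ring_nf; omega)

/-- facts on the available translations -/
lemma tr_T (h : ℕ) (hh : 0 < h) (hN : 2 * h + 2 < N) (a b d : ℂ) {i : ℕ} (hi : 2 * h ≤ i)
    (hi' : i < N) {l : ℕ} (hl : l < 2 * h) : Tr N (conf M h a b d) i 2 (T M l - P M 0) := by
  have h1 := Tr.base (p := conf M h a b d) hi' (by omega) (j := l) (by omega) (by omega)
  rwa [conf_lt M h a b d hl, conf_lt M h a b d (by omega : 0 < 2 * h), T_zero] at h1

lemma conf_zero (h : ℕ) (a b d : ℂ) (ha : h = 0 → a = P M 0) : conf M h a b d 0 = P M 0 := by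
  rcases Nat.eq_zero_or_pos h with rfl | hh
  · rw [ha rfl]
    exact conf_a M 0 _ _ _
  · rw [conf_lt M h a b d (by omega), T_zero]

lemma tr_P (h : ℕ) (a b d : ℂ) (ha : h = 0 → a = P M 0) {i : ℕ} (hi0 : i ≠ 0)
    (hi : i < 2 * h + 3) (hi' : i < N) {j : ℕ} (hj : 2 * h + 3 ≤ j) (hj' : j < N) :
    Tr N (conf M h a b d) i 2 (P M j - P M 0) := by
  have h1 := Tr.base (p := conf M h a b d) hi' hi0 (j := j) hj' (by omega)
  rwa [conf_ge M h a b d hj, conf_zero M h a b d ha] at h1

variable (hM : ∀ k, M (k + N) = M k)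
include hM

lemma tr_f' (h R : ℕ) (hN : N = 2 * h + 3 + 4 * R) (a b d : ℂ) (ha : h = 0 → a = P M 0) {i : ℕ}
    (hi0 : i ≠ 0) (hi : i < 2 * h + 3) (hi' : i < N) :
    Tr N (conf M h a b d) i (4 * R) (M (2 * h + 3) - M 0) := by
  have h1 := tr_f M (N := N) (Q := conf M h a b d) (i := i) (2 * h + 3) R fun s hs =>
    tr_P M h a b d ha hi0 hi hi' (by omega) (by omega)
  have h2 := hM 0
  rw [zero_add, hN] at h2
  rwa [h2] at h1

lemma tr_F' (h R : ℕ) (hN : N = 2 * h + 3 + 4 * R) (a b d : ℂ) (ha : h = 0 → a = P M 0) {i : ℕ}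
    (hi0 : i ≠ 0) (hi : i < 2 * h + 3) (hi' : i < N) :
    Tr N (conf M h a b d) i (4 * R) (M (2 * h + 4) - M 1) := by
  have h1 := tr_f M (N := N) (Q := conf M h a b d) (i := i) (2 * h + 4) R fun s hs =>
    tr_P M h a b d ha hi0 hi hi' (by omega) (by omega)
  have h2 := hM 1
  have e : 2 * h + 4 + 4 * R = 1 + N := by omega
  rwa [e, h2] at h1

/-- three pieces arrive -/
lemma block (h R : ℕ) (hN : N = 2 * h + 3 + 4 * R) :
    W N (100 * N ^ 2) (cfg M (2 * h)) (cfg M (2 * h + 3)) := by
  have hR : R ≤ N := by omega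
  have hhN : h ≤ N := by omega
  have hN1 : 1 ≤ N := by omega
  rw [cfg_conf, ← conf_cfg]
  rcases Nat.eq_zero_or_pos h with rfl | hh
  · -- the first block
    have ha : (0 : ℕ) = 0 → P M (2 * 0) = P M 0 := fun _ => rfl
    have h1 := (tr_f' M hM 0 R hN (P M (2 * 0)) (P M (2 * 0 + 1)) (P M (2 * 0 + 2)) ha (i := 1)
      (by omega) (by omega) (by omega)).use' (by omega) (by omega)
    have c1 : conf M 0 (P M (2 * 0)) (P M (2 * 0 + 1)) (P M (2 * 0 + 2)) 1 = P M (2 * 0 + 1) :=
      conf_b M 0 _ _ _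
    rw [conf_zero M 0 _ _ _ ha, c1] at h1
    have u1 := upd_b M 0 (P M (2 * 0)) (P M (2 * 0 + 1)) (P M (2 * 0 + 2))
      (2 * P M 0 - P M (2 * 0 + 1) + 2 * (M (2 * 0 + 3) - M 0))
    rw [show 2 * 0 + 1 = 1 from rfl] at u1
    rw [show 2 * 0 + 1 = 1 from rfl] at h1
    rw [u1] at h1
    have e1 : 2 * P M 0 - P M 1 + 2 * (M (2 * 0 + 3) - M 0) = T M (2 * 0 + 1) := by
      unfold T P; ring_nf
    rw [e1] at h1
    have h2 := ((tr_f' M hM 0 R hN (P M (2 * 0)) (T M (2 * 0 + 1)) (P M (2 * 0 + 2)) ha (i := 2)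
      (by omega) (by omega) (by omega)).add (tr_F' M hM 0 R hN (P M (2 * 0)) (T M (2 * 0 + 1))
      (P M (2 * 0 + 2)) ha (i := 2) (by omega) (by omega) (by omega))).use' (by omega) (by omega)
    have c2 : conf M 0 (P M (2 * 0)) (T M (2 * 0 + 1)) (P M (2 * 0 + 2)) 2 = P M (2 * 0 + 2) :=
      conf_d M 0 _ _ _
    rw [conf_zero M 0 _ _ _ ha, c2] at h2
    have u2 := upd_d M 0 (P M (2 * 0)) (T M (2 * 0 + 1)) (P M (2 * 0 + 2))
      (2 * P M 0 - P M (2 * 0 + 2) + 2 * (M (2 * 0 + 3) - M 0 + (M (2 * 0 + 4) - M 1)))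
    rw [show 2 * 0 + 2 = 2 from rfl] at u2
    rw [show 2 * 0 + 2 = 2 from rfl] at h2
    rw [u2] at h2
    have e2 : 2 * P M 0 - P M 2 + 2 * (M (2 * 0 + 3) - M 0 + (M (2 * 0 + 4) - M 1)) =
        T M (2 * 0 + 2) := by
      unfold T P; ring_nf
    rw [e2] at h2
    have h3 := h1.trans h2
    have e3 : P M (2 * 0) = T M (2 * 0) := (T_zero M).symm
    rw [e3] at h3 ⊢
    refine h3.mono ?_
    nlinarith
  · set p0 := P M 0 with hp0
    set A := P M (2 * h) with hA
    set B := P M (2 * h + 1) with hB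
    set D := P M (2 * h + 2) with hD
    have hne : h ≠ 0 := by omega
    have hN' : 2 * h + 2 < N := by omega
    have h1h : ∀ a : ℂ, h = 0 → a = P M 0 := fun a e => absurd e hne
    -- the piece in the middle
    have t1 := (tr_f' M hM h R hN A B D (h1h _) (i := 2 * h + 1) (by omega) (by omega) (by omega)).sub
      (tr_z M h fun l hl => tr_T M h hh hN' A B D (i := 2 * h + 1) (by omega) (by omega) hl)
    have s1 := t1.use' (by omega) (by omega)
    rw [conf_zero M h _ _ _ (h1h _), conf_b, upd_b, ← hp0] at s1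
    set u : ℂ := 2 * p0 - B + 2 * (M (2 * h + 3) - M 0 - (M (2 * h) + M (2 * h + 1) - M 0 - M 1))
      with hu
    -- the walk
    have s2 := jump_d M h hN' A u D
    have s3 := walk M h hN' A u (2 * A - D) h
    set xA : ℂ := A + 2 * h * (2 * A - D - A) with hxA
    set xD : ℂ := 2 * A - D + 2 * h * (2 * A - D - A) with hxD
    -- the first piece
    have q : ∀ (a d : ℂ) (i : ℕ), 2 * h ≤ i → i < 2 * h + 3 → i ≠ 2 * h + 1 →
        Tr N (conf M h a u d) i 2 (u - p0) := fun a d i h1 h2 h3 => by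
      have := Tr.base (p := conf M h a u d) (i := i) (N := N) (by omega) (by omega)
        (j := 2 * h + 1) (by omega) (by omega)
      rwa [conf_b, conf_zero M h _ _ _ (h1h _)] at this
    have tE : ∀ (a d : ℂ) (i : ℕ), 2 * h ≤ i → i < 2 * h + 3 → i ≠ 2 * h + 1 → ∀ g k : ℕ,
        g ≤ h + 1 → k ≤ 3 * h + 1 →
        Tr N (conf M h a u d) i (40 * N ^ 2) (-(h * (u - p0)) + g * (M (2 * h + 3) - M 0) +
          g * (M (2 * h + 4) - M 1) - k * (M (2 * h) + M (2 * h + 1) - M 0 - M 1) +
          (M (2 * h + 1) - M 1 - h * M 0 + h * M 2)) := fun a d i h1 h2 h3 g k hg hk => by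
      have w1 := (q a d i h1 h2 h3).nsmul h
      have w2 := (tr_f' M hM h R hN a u d (h1h _) (i := i) (by omega) h2 (by omega)).nsmul g
      have w3 := (tr_F' M hM h R hN a u d (h1h _) (i := i) (by omega) h2 (by omega)).nsmul g
      have w4 := (tr_z M h fun l hl => tr_T M h hh hN' a u d (i := i) h1 (by omega) hl).nsmul k
      have w5 := tr_zz M h fun l hl => tr_T M h hh hN' a u d (i := i) h1 (by omega) hl
      refine ((((w1.neg.add w2).add w3).sub w4).add w5).mono ?_
      have a1 : g * (4 * R) ≤ (h + 1) * (4 * R) := Nat.mul_le_mul_right _ hg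
      have a2 : k * (4 * h) ≤ (3 * h + 1) * (4 * h) := Nat.mul_le_mul_right _ hk
      nlinarith
    have t4 := tE xA xD (2 * h) (by omega) (by omega) (by omega) h (3 * h) (by omega) (by omega)
    have s4 := t4.use
    rw [conf_a, upd_a] at s4
    have e4 : xA + 2 * (-(h * (u - p0)) + h * (M (2 * h + 3) - M 0) +
          h * (M (2 * h + 4) - M 1) - ((3 * h : ℕ) : ℂ) * (M (2 * h) + M (2 * h + 1) - M 0 - M 1) +
          (M (2 * h + 1) - M 1 - h * M 0 + h * M 2)) = T M (2 * h) := by
      rw [hxA, hu, hp0, hA, hB, hD]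
      unfold T P
      push_cast
      ring_nf
    rw [e4] at s4
    -- the last piece
    have t5 := tE (T M (2 * h)) xD (2 * h + 2) (by omega) (by omega) (by omega) (h + 1) (3 * h + 1)
      (by omega) (by omega)
    have s5 := t5.use
    rw [conf_d, upd_d] at s5
    have e5 : xD + 2 * (-(h * (u - p0)) + ((h + 1 : ℕ) : ℂ) * (M (2 * h + 3) - M 0) +
          ((h + 1 : ℕ) : ℂ) * (M (2 * h + 4) - M 1) -
          ((3 * h + 1 : ℕ) : ℂ) * (M (2 * h) + M (2 * h + 1) - M 0 - M 1) +
          (M (2 * h + 1) - M 1 - h * M 0 + h * M 2)) = T M (2 * h + 2) := by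
      rw [hxD, hu, hp0, hA, hB, hD]
      unfold T P
      push_cast
      ring_nf
    rw [e5] at s5
    -- the piece in the middle
    have t6 := Tr.base (p := conf M h (T M (2 * h)) u (T M (2 * h + 2))) (i := 2 * h + 1) (N := N)
      (by omega) (by omega) (j := 2 * h) (by omega) (by omega)
    rw [conf_a, conf_zero M h _ _ _ (h1h _)] at t6
    have s6 := t6.use
    rw [conf_b, upd_b] at s6
    have e6 : u + 2 * (T M (2 * h) - P M 0) = T M (2 * h + 1) := by
      rw [hu, hp0, hB]
      unfold T P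
      ring_nf
    rw [e6] at s6
    refine (((((s1.trans s2).trans s3).trans s4).trans s5).trans s6).mono ?_
    nlinarith

/-- one piece arrives -/
lemma single (a R : ℕ) (hN : N = a + 4 * R) (ha : 1 ≤ a) (haN : a < N) :
    W N N (cfg M a) (cfg M (a + 1)) := by
  have h1 : Tr N (cfg M a) a (4 * R) (M (a + 1) - M 1) := by
    have h2 := tr_f M (N := N) (Q := cfg M a) (i := a) (a + 1) R fun s hs => by
      have h3 := Tr.base (p := cfg M a) haN (by omega) (j := a + 1 + 2 * s) (by omega) (by omega)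
      have e1 : cfg M a (a + 1 + 2 * s) = P M (a + 1 + 2 * s) := by
        unfold cfg; rw [if_neg (by omega)]
      have e2 : cfg M a 0 = P M 0 := by
        unfold cfg; rw [if_pos (by omega), T_zero]
      rwa [e1, e2] at h3
    have e : a + 1 + 4 * R = 1 + N := by omega
    rwa [e, hM 1] at h2
  have h2 := h1.use
  have e1 : cfg M a a = P M a := by unfold cfg; rw [if_neg (by omega)]
  have e2 : P M a + 2 * (M (a + 1) - M 1) = T M a := by unfold T; ring
  rw [e1, e2] at h2
  have e3 : update (cfg M a) a (T M a) = cfg M (a + 1) := by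
    funext k
    by_cases hk : k = a
    · rw [hk, update_self]; unfold cfg; rw [if_pos (by omega)]
    · rw [update_of_ne hk]
      unfold cfg
      by_cases h3 : k < a
      · rw [if_pos h3, if_pos (by omega)]
      · rw [if_neg h3, if_neg (by omega)]
  rw [e3] at h2
  exact h2.mono (by omega)

/-- all the remaining pieces arrive -/
lemma loop (h R : ℕ) (hN : N = 2 * h + 3 + 4 * R) :
    W N ((R + 1) * (101 * N ^ 2)) (cfg M (2 * h)) (cfg M N) := by
  induction R generalizing h with
  | zero =>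
    have := block M hM h 0 hN
    have e : 2 * h + 3 = N := by omega
    rw [e] at this
    exact this.mono (by nlinarith)
  | succ R ih =>
    have h1 := block M hM h (R + 1) hN
    have h2 := single M hM (2 * h + 3) (R + 1) hN (by omega) (by omega)
    have h3 := ih (h + 2) (by omega)
    have e : 2 * h + 3 + 1 = 2 * (h + 2) := by ring
    rw [e] at h2
    refine ((h1.trans h2).trans h3).mono ?_
    have : 1 ≤ N := by omega
    nlinarith

/-- the theorem for odd polygons, in terms of the sequence `M` -/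
lemma odd_main (hN : Odd N) (hN5 : 5 ≤ N) : W N (102 * N ^ 3) (P M) (cfg M N) := by
  have e0 : cfg M 0 = P M := by
    funext k
    unfold cfg
    rw [if_neg (by omega)]
  have e1 : cfg M 1 = P M := by
    funext k
    unfold cfg
    by_cases hk : k < 1
    · rw [if_pos hk, show k = 0 by omega, T_zero]
    · rw [if_neg hk]
  obtain ⟨n, hn⟩ := hN
  rcases Nat.even_or_odd n with ⟨r, hr⟩ | ⟨r, hr⟩
  · -- `N = 4 r + 1`
    obtain ⟨r', rfl⟩ : ∃ r', r = r' + 1 := ⟨r - 1, by omega⟩
    have h1 := single M hM 1 (r' + 1) (by omega) le_rfl (by omega)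
    have h2 := loop M hM 1 r' (by omega)
    rw [e1] at h1
    refine (h1.trans h2).mono ?_
    have h3 : r' + 1 ≤ N := by omega
    have h4 : (r' + 1) * (101 * N ^ 2) ≤ N * (101 * N ^ 2) := Nat.mul_le_mul_right _ h3
    have h5 : N ≤ N ^ 3 := Nat.le_self_pow (by norm_num) N
    calc N + (r' + 1) * (101 * N ^ 2) ≤ N ^ 3 + N * (101 * N ^ 2) := by omega
      _ = 102 * N ^ 3 := by ring
  · have h2 := loop M hM 0 r (by omega)
    rw [show 2 * 0 = 0 from rfl, e0] at h2
    refine h2.mono ?_
    have h3 : r + 1 ≤ N := by omega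
    have h4 : (r + 1) * (101 * N ^ 2) ≤ N * (101 * N ^ 2) := Nat.mul_le_mul_right _ h3
    calc (r + 1) * (101 * N ^ 2) ≤ N * (101 * N ^ 2) := h4
      _ = 101 * N ^ 3 := by ring
      _ ≤ _ := by omega

end odd

/-! ### the enlargement factor -/

/-- the root of unity -/
noncomputable def root (N : ℕ) : ℂ := Complex.exp (2 * Real.pi * Complex.I / N)

lemma root_prim {N : ℕ} (hN : N ≠ 0) : IsPrimitiveRoot (root N) N :=
  Complex.isPrimitiveRoot_exp N hN

lemma polygon_eq (N : ℕ) (k : Fin N) : polygon N k = root N ^ (k : ℕ) := by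
  unfold polygon root
  rw [← Complex.exp_nat_mul]
  congr 1
  ring

/-- the factor for a root of unity `z` -/
noncomputable def al (z : ℂ) : ℂ := 1 + 2 * (z / (1 + z ^ 2))

lemma root_cos {m : ℕ} (hm : 5 ≤ m) :
    ∃ c : ℝ, 0 < c ∧ root m + (root m)⁻¹ = 2 * c := by
  have hm0 : (0 : ℝ) < m := by positivity
  have hm5 : (5 : ℝ) ≤ m := by exact_mod_cast hm
  refine ⟨Real.cos (2 * Real.pi / m), ?_, ?_⟩
  · have hpi := Real.pi_pos
    apply Real.cos_pos_of_mem_Ioo
    constructor
    · have : 0 < 2 * Real.pi / m := by positivity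
      linarith
    · rw [div_lt_iff₀ hm0]
      nlinarith
  · have h1 : root m = Complex.exp (((2 * Real.pi / m : ℝ) : ℂ) * Complex.I) := by
      unfold root
      congr 1
      push_cast
      ring
    rw [h1, ← Complex.exp_neg, Complex.ofReal_cos, Complex.cos]
    ring_nf

lemma root_ne {m : ℕ} (hm : 5 ≤ m) : 1 + root m ^ 2 ≠ 0 := by
  obtain ⟨c, hc, h⟩ := root_cos hm
  have h0 : root m ≠ 0 := Complex.exp_ne_zero _
  intro h1
  have h2 : root m * (root m + (root m)⁻¹) = 1 + root m ^ 2 := by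
    field_simp
    ring
  rw [h1, h] at h2
  rcases mul_eq_zero.1 h2 with h3 | h3
  · exact h0 h3
  · rcases mul_eq_zero.1 h3 with h4 | h4
    · norm_num at h4
    · exact hc.ne' (by exact_mod_cast h4)

lemma norm_al {m : ℕ} (hm : 5 ≤ m) : 1 < ‖al (root m)‖ := by
  obtain ⟨c, hc, h⟩ := root_cos hm
  have h0 : root m ≠ 0 := Complex.exp_ne_zero _
  have h1 := root_ne hm
  have hcC : (c : ℂ) ≠ 0 := by exact_mod_cast hc.ne'
  have h2 : al (root m) = ((1 + 1 / c : ℝ) : ℂ) := by
    unfold al
    have h3 : 1 + root m ^ 2 = root m * (2 * c) := by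
      rw [← h]
      field_simp
      ring
    rw [h3]
    push_cast
    field_simp
  rw [h2, Complex.norm_real, Real.norm_eq_abs]
  have h3 : 0 < 1 / c := by positivity
  rw [abs_of_pos (by linarith)]
  linarith

/-- a reached configuration is good -/
lemma finish {N n : ℕ} {q : ℕ → ℂ} (h : W N n (fun k => root N ^ k) q) (w : ℂ) (hw : 1 < ‖w‖)
    (hq : ∀ k < N, q k = (1 - w) + w * root N ^ k) :
    ∃ m ≤ n, ∃ r : Fin N → ℂ, Reach m (polygon N) r ∧ Larger r := by
  obtain ⟨m, hm, hr⟩ := h.reach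
  have e : polygon N = fun k : Fin N => root N ^ (k : ℕ) := funext fun k => polygon_eq N k
  refine ⟨m, hm, fun k => q k, ?_, 1 - w, w, hw, ?_⟩
  · rw [e]; exact hr
  · congr 1
    funext k
    rw [hq k k.2, polygon_eq]

theorem odd_case {N : ℕ} (hN : Odd N) (hN5 : 5 ≤ N) :
    ∃ m ≤ 102 * N ^ 3, ∃ r : Fin N → ℂ, Reach m (polygon N) r ∧ Larger r := by
  have h1 := root_ne hN5
  have h2 := (root_prim (N := N) (by omega)).pow_eq_one
  set z := root N with hz
  let M : ℕ → ℂ := fun k => z ^ k / (1 + z ^ 2)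
  have hM : ∀ k, M (k + N) = M k := fun k => by
    show z ^ (k + N) / (1 + z ^ 2) = z ^ k / (1 + z ^ 2)
    rw [pow_add, h2, mul_one]
  have hP : P M = fun k => z ^ k := by
    funext k
    show z ^ k / (1 + z ^ 2) + z ^ (k + 2) / (1 + z ^ 2) = z ^ k
    field_simp
    ring
  have h3 := odd_main M hM hN hN5
  rw [hP] at h3
  refine finish h3 (al z) (norm_al hN5) fun k hk => ?_
  unfold cfg
  rw [if_pos hk]
  unfold T
  rw [hP]
  show z ^ k + 2 * (z ^ (k + 1) / (1 + z ^ 2)) - 2 * (z ^ 1 / (1 + z ^ 2)) =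
    (1 - al z) + al z * z ^ k
  unfold al
  field_simp
  ring

/-! ### even polygons -/

/-- sums of `n` signed powers of `z` -/
inductive RB (z : ℂ) : ℕ → ℂ → Prop
  | zero : RB z 0 0
  | add {n : ℕ} {b : ℂ} (h : RB z n b) (e : ℕ) : RB z (n + 1) (b + z ^ e)
  | sub {n : ℕ} {b : ℂ} (h : RB z n b) (e : ℕ) : RB z (n + 1) (b - z ^ e)

lemma RB.plus {z : ℂ} {n m : ℕ} {a b : ℂ} (ha : RB z n a) (hb : RB z m b) :
    RB z (n + m) (a + b) := by
  induction hb with
  | zero => simpa using ha
  | add h e ih => rw [← add_assoc, ← add_assoc]; exact ih.add e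
  | sub h e ih => rw [← add_assoc, ← add_sub_assoc]; exact ih.sub e

lemma RB.minus {z : ℂ} {n m : ℕ} {a b : ℂ} (ha : RB z n a) (hb : RB z m b) :
    RB z (n + m) (a - b) := by
  induction hb with
  | zero => simpa using ha
  | add h e ih => rw [← add_assoc, ← sub_sub]; exact ih.sub e
  | sub h e ih => rw [← add_assoc, ← sub_add]; exact ih.add e

lemma RB.mulpow {z : ℂ} {n : ℕ} {a : ℂ} (ha : RB z n a) (k : ℕ) : RB z n (a * z ^ k) := by
  induction ha with
  | zero => simpa using RB.zero
  | add h e ih => rw [add_mul, ← pow_add]; exact ih.add _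
  | sub h e ih => rw [sub_mul, ← pow_add]; exact ih.sub _

lemma RB.mul {z : ℂ} {n m : ℕ} {a b : ℂ} (ha : RB z n a) (hb : RB z m b) :
    RB z (n * m) (a * b) := by
  induction hb with
  | zero => simpa using RB.zero
  | @add k b h e ih =>
    rw [Nat.mul_succ, mul_add a b]
    exact ih.plus (ha.mulpow e)
  | @sub k b h e ih =>
    rw [Nat.mul_succ, mul_sub a b]
    exact ih.minus (ha.mulpow e)

lemma RB.pow {z : ℂ} (k : ℕ) : RB z 1 (z ^ k) := by
  have := (RB.zero (z := z)).add k
  simpa using this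

lemma RB.sum {z : ℂ} (f : ℕ → ℕ) (n : ℕ) : RB z n (∑ j ∈ range n, z ^ f j) := by
  induction n with
  | zero => simpa using RB.zero
  | succ n ih => rw [sum_range_succ]; exact ih.add _

/-- translations from a representation -/
lemma RB.tr {z : ℂ} {N i B n : ℕ} {Q : ℕ → ℂ} {b w : ℂ} (hb : RB z n b)
    (h : ∀ j : ℕ, Tr N Q i B (w * (z ^ j - 1))) (k : ℕ) :
    Tr N Q i (n * (2 * B)) (w * (b * (z ^ k - 1))) := by
  induction hb with
  | zero => simpa using Tr.zero
  | @add n b hb e ih =>
    have h1 := ih.add ((h (e + k)).sub (h e))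
    have e1 : w * (b * (z ^ k - 1)) + (w * (z ^ (e + k) - 1) - w * (z ^ e - 1)) =
        w * ((b + z ^ e) * (z ^ k - 1)) := by rw [pow_add]; ring
    rw [e1] at h1
    rw [Nat.succ_mul]
    exact h1.mono (by omega)
  | @sub n b hb e ih =>
    have h1 := ih.add ((h e).sub (h (e + k)))
    have e1 : w * (b * (z ^ k - 1)) + (w * (z ^ e - 1) - w * (z ^ (e + k) - 1)) =
        w * ((b - z ^ e) * (z ^ k - 1)) := by rw [pow_add]; ring
    rw [e1] at h1
    rw [Nat.succ_mul]
    exact h1.mono (by omega)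

section even
variable {N H : ℕ} {z w : ℂ}

/-- the pieces below `a` have arrived -/
noncomputable def cfE (z w : ℂ) (a k : ℕ) : ℂ := if k < a then (1 - w) + w * z ^ k else z ^ k

lemma cfE_zero (z w : ℂ) (a : ℕ) : cfE z w a 0 = 1 := by
  unfold cfE
  by_cases h : 0 < a
  · rw [if_pos h]; ring
  · rw [if_neg h]; ring

lemma cfE_lt (z w : ℂ) {a k : ℕ} (h : k < a) : cfE z w a k = (1 - w) + w * z ^ k := by
  unfold cfE
  rw [if_pos h]

lemma cfE_ge (z w : ℂ) {a k : ℕ} (h : a ≤ k) : cfE z w a k = z ^ k := by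
  unfold cfE
  rw [if_neg (by omega)]

lemma cfE_step {b : ℂ} {B a : ℕ} (hw : w = 1 + 2 * b)
    (h : Tr N (cfE z w a) a B (b * (z ^ a - 1))) : W N B (cfE z w a) (cfE z w (a + 1)) := by
  have h1 := h.use
  rw [cfE_ge z w le_rfl] at h1
  have e : z ^ a + 2 * (b * (z ^ a - 1)) = (1 - w) + w * z ^ a := by rw [hw]; ring
  rw [e] at h1
  have e3 : update (cfE z w a) a ((1 - w) + w * z ^ a) = cfE z w (a + 1) := by
    funext k
    by_cases hk : k = a
    · rw [hk, update_self, cfE_lt z w (by omega)]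
    · rw [update_of_ne hk]
      by_cases h3 : k < a
      · rw [cfE_lt z w h3, cfE_lt z w (by omega)]
      · rw [cfE_ge z w (by omega), cfE_ge z w (by omega)]
  rwa [e3] at h1

lemma cfE_loop {b : ℂ} {B c d : ℕ} (hw : w = 1 + 2 * b)
    (h : ∀ a, c ≤ a → a < d → Tr N (cfE z w a) a B (b * (z ^ a - 1))) (hcd : c ≤ d) :
    W N ((d - c) * B) (cfE z w c) (cfE z w d) := by
  induction d, hcd using Nat.le_induction with
  | base => simpa using W.refl 0 _
  | succ d hcd ih =>
    have h1 := ih fun a h1 h2 => h a h1 (by omega)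
    have h2 := cfE_step hw (h d hcd (by omega))
    refine (h1.trans h2).mono (le_of_eq ?_)
    rw [Nat.succ_sub hcd, Nat.succ_mul]

variable (hNH : N = 2 * H) (hH : 1 ≤ H) (hz : z ^ H = -1)
include hNH hH hz

lemma z_pow : z ^ N = 1 := by
  rw [hNH, mul_comm, pow_mul, hz]
  norm_num

lemma z_mod (j : ℕ) : z ^ j = z ^ (j % N) := by
  conv_lhs => rw [← Nat.div_add_mod j N, pow_add, pow_mul, z_pow hNH hH hz, one_pow, one_mul]

lemma tr_up {a : ℕ} (ha1 : 1 ≤ a) (haH : a < H) (j : ℕ) :
    Tr N (cfE z w a) a 4 (1 * (z ^ j - 1)) := by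
  rw [one_mul, z_mod hNH hH hz j]
  have hr : j % N < N := Nat.mod_lt _ (by omega)
  set r := j % N with hrd
  have hb : ∀ k, H ≤ k → k < N → Tr N (cfE z w a) a 2 (z ^ k - 1) := fun k h1 h2 => by
    have := Tr.base (p := cfE z w a) (i := a) (N := N) (by omega) (by omega) (j := k) h2 (by omega)
    rwa [cfE_zero, cfE_ge z w (by omega)] at this
  by_cases h : H ≤ r
  · exact (hb r h hr).mono (by omega)
  · have h1 := (hb H le_rfl (by omega)).sub (hb (H + r) (by omega) (by omega))
    have e : z ^ H - 1 - (z ^ (H + r) - 1) = z ^ r - 1 := by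
      rw [pow_add, hz]; ring
    rwa [e] at h1

lemma first_half {b : ℂ} {n : ℕ} (hw : w = 1 + 2 * b) (hb : RB z n b) :
    W N (H * (n * 8)) (fun k => z ^ k) (cfE z w H) := by
  have h1 := cfE_loop (z := z) (w := w) (N := N) (b := b) (B := n * 8) (c := 1) (d := H) hw
    (fun a h1 h2 => by
      have := hb.tr (fun j => tr_up (w := w) hNH hH hz h1 h2 j) a
      rw [one_mul] at this
      exact this.mono (by omega)) hH
  have e : cfE z w 1 = fun k => z ^ k := by
    funext k
    by_cases hk : k < 1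
    · rw [show k = 0 by omega, cfE_zero, pow_zero]
    · rw [cfE_ge z w (by omega)]
  rw [e] at h1
  exact h1.mono (Nat.mul_le_mul_right _ (by omega))

lemma tr_low_base {a : ℕ} (haH : H ≤ a) (haN : a < N) {k : ℕ} (hk : k < a) :
    Tr N (cfE z w a) a 2 (w * (z ^ k - 1)) := by
  have := Tr.base (p := cfE z w a) (i := a) (N := N) haN (by omega) (j := k) (by omega) (by omega)
  rw [cfE_zero, cfE_lt z w hk] at this
  have e : 1 - w + w * z ^ k - 1 = w * (z ^ k - 1) := by ring
  rwa [e] at this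

lemma tr_low {m t : ℕ} (hm : Odd m) (ht : H = t * m) (hrel : ∑ l ∈ range m, (-1) ^ l * z ^ (t * l) = 0)
    {a : ℕ} (haH : H ≤ a) (haN : a < N) (j : ℕ) :
    Tr N (cfE z w a) a (4 * m + 2) (w * (z ^ j - 1)) := by
  rw [z_mod hNH hH hz j]
  have hr : j % N < N := Nat.mod_lt _ (by omega)
  set r := j % N with hrd
  by_cases h : r < H
  · exact (tr_low_base hNH hH hz haH haN (by omega)).mono (by omega)
  · have h1 := (Tr.sum (N := N) (p := cfE z w a) (i := a) (B := 2) (n := m)
      (w := fun l => (-1) ^ l * (w * (z ^ (t * l) - 1))) fun l hl =>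
        (tr_low_base hNH hH hz haH haN (by
          have : t * l < t * m := by
            have ht0 : 0 < t := Nat.pos_of_ne_zero fun e => by rw [e] at ht; omega
            exact Nat.mul_lt_mul_of_pos_left hl ht0
          omega)).sign l).nsmul 2
    have h2 := h1.sub (tr_low_base (w := w) hNH hH hz haH haN (k := r - H) (by omega))
    have e1 : ∀ m : ℕ, ∑ l ∈ range m, (-1) ^ l * (w * (z ^ (t * l) - 1)) =
        w * (∑ l ∈ range m, (-1) ^ l * z ^ (t * l)) - w * ∑ l ∈ range m, (-1 : ℂ) ^ l := by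
      intro m
      rw [mul_sum, mul_sum, ← sum_sub_distrib]
      exact sum_congr rfl fun l _ => by ring
    have e2 : ∑ l ∈ range m, (-1 : ℂ) ^ l = 1 := by
      obtain ⟨n, rfl⟩ := hm
      clear h1 h2 hrel ht
      induction n with
      | zero => simp
      | succ n ih =>
        rw [show 2 * (n + 1) + 1 = (2 * n + 1) + 1 + 1 by ring, sum_range_succ, sum_range_succ, ih]
        rw [pow_succ (-1 : ℂ) (2 * n + 1)]
        ring
    rw [e1, hrel, e2] at h2
    have e3 : z ^ r = - z ^ (r - H) := by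
      conv_lhs => rw [show r = H + (r - H) by omega, pow_add, hz]
      ring
    have e4 : ((2 : ℕ) : ℂ) * (w * 0 - w * 1) - w * (z ^ (r - H) - 1) = w * (z ^ r - 1) := by
      rw [e3]; push_cast; ring
    rw [e4] at h2
    exact h2.mono (by omega)

lemma tr_low' {a : ℕ} (haH : H < a) (haN : a < N) (j : ℕ) :
    Tr N (cfE z w a) a 4 (w * (z ^ j - 1)) := by
  rw [z_mod hNH hH hz j]
  have hr : j % N < N := Nat.mod_lt _ (by omega)
  set r := j % N with hrd
  by_cases h : r < H
  · exact (tr_low_base hNH hH hz (by omega) haN (by omega)).mono (by omega)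
  · have c1 := (tr_low_base (w := w) hNH hH hz (by omega) haN (k := H) (by omega)).sub
      (tr_low_base (w := w) hNH hH hz (by omega) haN (k := r - H) (by omega))
    have e3 : z ^ r = - z ^ (r - H) := by
      conv_lhs => rw [show r = H + (r - H) by omega, pow_add, hz]
      ring
    have e4 : w * (z ^ H - 1) - w * (z ^ (r - H) - 1) = w * (z ^ r - 1) := by
      rw [e3, hz]; ring
    rwa [e4] at c1

lemma last_half {b g : ℂ} {n' : ℕ} (hw : w = 1 + 2 * b) (hg : w * g = b) (hg' : RB z n' g) :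
    W N (H * (n' * 8)) (cfE z w (H + 1)) (cfE z w N) := by
  have h2 := cfE_loop (z := z) (w := w) (N := N) (b := b) (B := n' * 8) (c := H + 1)
    (d := N) hw (fun a h1 h2 => by
      have := hg'.tr (fun j => tr_low' (w := w) hNH hH hz (by omega) h2 j) a
      rw [← mul_assoc w g, hg] at this
      exact this.mono (by omega)) (by omega)
  exact h2.mono (Nat.mul_le_mul_right _ (by omega))

/-- the even case with a relation of odd length -/
lemma even_A {b g : ℂ} {n n' m t : ℕ} (hw : w = 1 + 2 * b) (hg : w * g = b) (hb : RB z n b)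
    (hg' : RB z n' g) (hm : Odd m) (ht : H = t * m)
    (hrel : ∑ l ∈ range m, (-1) ^ l * z ^ (t * l) = 0) :
    W N (H * (n * 8) + n' * (2 * (4 * m + 2)) + H * (n' * 8)) (fun k => z ^ k) (cfE z w N) := by
  have h1 := first_half hNH hH hz hw hb
  have h2 := hg'.tr (fun j => tr_low (w := w) hNH hH hz hm ht hrel le_rfl (by omega) j) H
  rw [← mul_assoc w g, hg] at h2
  exact (h1.trans (cfE_step hw h2)).trans (last_half hNH hH hz hw hg hg')

/-- the case of multiples of eight -/
lemma even_eight {t : ℕ} (hHt : H = 4 * t) (hw : w = 1 + 2 * (1 + z ^ t + z ^ (7 * t))) :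
    W N (H * (3 * 8) + 28 + H * (3 * 8)) (fun k => z ^ k) (cfE z w N) := by
  have ht : 1 ≤ t := by omega
  have hs4 : (z ^ t) ^ 4 = -1 := by rw [← pow_mul, mul_comm, ← hHt, hz]
  have hs7 : z ^ (7 * t) = -(z ^ t) ^ 3 := by
    rw [show 7 * t = t * 4 + t * 3 by ring, pow_add, pow_mul, pow_mul, hs4]; ring
  have hb : RB z 3 (1 + z ^ t + z ^ (7 * t)) := by
    have := ((RB.pow (z := z) 0).add t).add (7 * t)
    simpa using this
  have hg : RB z 3 (z ^ t + z ^ (7 * t) - 1) := by
    have := ((RB.pow (z := z) t).add (7 * t)).sub 0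
    simpa using this
  have h1 := first_half hNH hH hz hw hb
  -- the piece `H`
  have h2 : Tr N (cfE z w H) H 28 ((1 + z ^ t + z ^ (7 * t)) * (z ^ H - 1)) := by
    have a1 : ∀ k, k < H → Tr N (cfE z w H) H 2 (w * (z ^ k - 1)) := fun k hk =>
      tr_low_base hNH hH hz le_rfl (by omega) hk
    have a2 : ∀ k, H < k → k < N → Tr N (cfE z w H) H 2 (z ^ k - 1) := fun k h1 h2 => by
      have := Tr.base (p := cfE z w H) (i := H) (N := N) (by omega) (by omega) (j := k) h2 (by omega)
      rwa [cfE_zero, cfE_ge z w (by omega)] at this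
    have b1 := ((a1 t (by omega)).nsmul 2).sub (a1 (3 * t) (by omega))
    have b2 := b1.add ((a2 (H + t) (by omega) (by omega)).nsmul 6)
    have b3 := b2.add ((a2 (H + 2 * t) (by omega) (by omega)).nsmul 2)
    have b4 := b3.sub ((a2 (H + 3 * t) (by omega) (by omega)).nsmul 3)
    have e : ((2 : ℕ) : ℂ) * (w * (z ^ t - 1)) - w * (z ^ (3 * t) - 1) +
        ((6 : ℕ) : ℂ) * (z ^ (H + t) - 1) + ((2 : ℕ) : ℂ) * (z ^ (H + 2 * t) - 1) -
        ((3 : ℕ) : ℂ) * (z ^ (H + 3 * t) - 1) = (1 + z ^ t + z ^ (7 * t)) * (z ^ H - 1) := by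
      rw [hw, pow_add, pow_add, pow_add, hz, hs7, show 3 * t = t * 3 by ring,
        show 2 * t = t * 2 by ring, pow_mul, pow_mul]
      push_cast
      linear_combination (2 * (z ^ t) ^ 2 - 6) * hs4
    rw [e] at b4
    exact b4.mono (by omega)
  have h3 := cfE_step hw h2
  have e5 : w * (z ^ t + z ^ (7 * t) - 1) = 1 + z ^ t + z ^ (7 * t) := by
    rw [hw, hs7]
    linear_combination (2 * (z ^ t) ^ 2 - 4) * hs4
  exact (h1.trans h3).trans (last_half hNH hH hz hw e5 hg)

end even

/-! ### the two kinds of enlargement factors for even polygons -/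

lemma sum_pow_zero {y : ℂ} {m : ℕ} (h1 : y ≠ 1) (h2 : y ^ m = 1) : ∑ i ∈ range m, y ^ i = 0 := by
  have h := mul_neg_geom_sum y m
  rw [h2, sub_self] at h
  rcases mul_eq_zero.1 h with h | h
  · exact absurd (by linear_combination -h) h1
  · exact h

lemma inv_one_add {y : ℂ} {n : ℕ} (h1 : y ≠ 1) (h2 : y ^ (2 * n + 1) = 1) :
    (1 + y) * ∑ j ∈ range (n + 1), y ^ (2 * j) = 1 := by
  have h3 : ∀ n : ℕ, (1 + y) * ∑ j ∈ range (n + 1), y ^ (2 * j) =
      ∑ i ∈ range (2 * n + 1), y ^ i + y ^ (2 * n + 1) := by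
    intro n
    induction n with
    | zero => simp
    | succ n ih =>
      rw [sum_range_succ, mul_add, ih, show 2 * (n + 1) + 1 = 2 * n + 1 + 1 + 1 by ring,
        sum_range_succ _ (2 * n + 1 + 1), sum_range_succ _ (2 * n + 1),
        show 2 * (n + 1) = 2 * n + 1 + 1 by ring]
      ring
  rw [h3, sum_pow_zero h1 h2, h2, zero_add]

/-- even polygons with an odd divisor at least five -/
lemma even_odd_part {e m : ℕ} (hm : Odd m) (hm5 : 5 ≤ m) :
    ∃ k ≤ 100 * (2 ^ (e + 1) * m) ^ 3, ∃ r : Fin (2 ^ (e + 1) * m) → ℂ,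
      Reach k (polygon (2 ^ (e + 1) * m)) r ∧ Larger r := by
  set N := 2 ^ (e + 1) * m with hNd
  set H := 2 ^ e * m with hHd
  have hNH : N = 2 * H := by rw [hNd, hHd, pow_succ]; ring
  have hpe : 1 ≤ 2 ^ e := Nat.one_le_two_pow
  have hH : 1 ≤ H := Nat.mul_pos hpe (by omega)
  have hmN : m ≤ N := Nat.le_mul_of_pos_left m (by positivity)
  have hN0 : N ≠ 0 := by omega
  have hprim := root_prim hN0
  set z := root N with hz
  have hz0 : z ^ H = -1 := by
    have h1 : (z ^ H) ^ 2 = 1 := by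
      rw [← pow_mul, mul_comm, ← hNH, hprim.pow_eq_one]
    rcases mul_self_eq_one_iff.1 ((sq _).symm.trans h1) with h2 | h2
    · exfalso
      have := (hprim.pow_eq_one_iff_dvd H).1 h2
      have := Nat.le_of_dvd (by omega) this
      omega
    · exact h2
  set q := z ^ (2 ^ (e + 1)) with hq
  have hqm : q ^ m = 1 := by rw [hq, ← pow_mul, ← hNd, hprim.pow_eq_one]
  have hqr : q = root m := by
    rw [hq, hz]
    unfold root
    rw [← Complex.exp_nat_mul]
    congr 1
    have hm0 : (m : ℂ) ≠ 0 := by exact_mod_cast (by omega : m ≠ 0)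
    rw [hNd]
    push_cast
    field_simp
  obtain ⟨n, hn⟩ := hm
  have hq1 : q ≠ 1 := fun h => by
    have := (hprim.pow_eq_one_iff_dvd _).1 h
    have h1 := Nat.le_of_dvd (by positivity) this
    have h2 : 2 ^ (e + 1) * 1 < 2 ^ (e + 1) * m := Nat.mul_lt_mul_of_pos_left (by omega) (by positivity)
    omega
  have hq2 : q ^ 2 ≠ 1 := fun h => by
    have h1 : q ^ (2 * n + 1) = 1 := by rw [← hn]; exact hqm
    rw [pow_succ, pow_mul, h, one_pow, one_mul] at h1
    exact hq1 h1
  have i1 := inv_one_add (n := n) hq1 (by rw [← hn]; exact hqm)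
  have i2 := inv_one_add (n := n) hq2 (by rw [← pow_mul, mul_comm, pow_mul, ← hn, hqm, one_pow])
  have hne := root_ne hm5
  rw [← hqr] at hne
  -- representations
  set b := q / (1 + q ^ 2) with hb
  have hbs : b = ∑ j ∈ range (n + 1), z ^ (2 ^ (e + 1) * (1 + 4 * j)) := by
    have h1 : ∀ j ∈ range (n + 1), z ^ (2 ^ (e + 1) * (1 + 4 * j)) = q * (q ^ 2) ^ (2 * j) := by
      intro j _
      rw [pow_mul, ← hq, pow_add, pow_one]
      congr 1
      rw [← pow_mul q 2]
      congr 1
      ring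
    rw [sum_congr rfl h1, ← mul_sum, hb, div_eq_iff hne]
    linear_combination (-q) * i2
  have hRB : RB z (n + 1) b := by rw [hbs]; exact RB.sum _ _
  set v := ∑ j ∈ range (n + 1), q ^ (2 * j) with hv
  have hvs : v = ∑ j ∈ range (n + 1), z ^ (2 ^ (e + 1) * (2 * j)) := by
    rw [hv]
    exact sum_congr rfl fun j _ => by rw [pow_mul z, ← hq]
  have hRv : RB z (n + 1) v := by rw [hvs]; exact RB.sum _ _
  have hRg : RB z ((n + 1) * (n + 1)) (v * v * z ^ (2 ^ (e + 1))) := (hRv.mul hRv).mulpow _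
  have hg : al q * (v * v * z ^ (2 ^ (e + 1))) = b := by
    rw [← hq, hb]
    unfold al
    have h1 : 1 + q ≠ 0 := fun h => by rw [h, zero_mul] at i1; exact zero_ne_one i1
    have h2 : v = 1 / (1 + q) := by
      rw [eq_div_iff h1]; linear_combination i1
    rw [h2]
    field_simp
    ring
  -- the relation
  have hrel : ∑ l ∈ range m, (-1) ^ l * z ^ (2 ^ e * l) = 0 := by
    have h1 : ∀ l ∈ range m, (-1) ^ l * z ^ (2 ^ e * l) = (-z ^ (2 ^ e)) ^ l := by
      intro l _
      rw [neg_pow (z ^ (2 ^ e)), pow_mul]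
    rw [sum_congr rfl h1]
    apply sum_pow_zero
    · intro h
      have h2 : q = 1 := by
        rw [hq, pow_succ, pow_mul]
        have : z ^ 2 ^ e = -1 := by linear_combination -h
        rw [this]
        norm_num
      exact hq1 h2
    · rw [neg_pow, ← pow_mul, ← hHd, hz0, hn, pow_succ, pow_mul]
      norm_num
  have hm' : Odd m := ⟨n, hn⟩
  have h1 := even_A (z := z) (w := al q) (b := b) hNH hH hz0 rfl hg hRB hRg hm' hHd hrel
  have h2 := finish h1 (al q) (by rw [hqr]; exact norm_al hm5) fun k hk => cfE_lt z (al q) hk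
  obtain ⟨k, hk, r, hr⟩ := h2
  refine ⟨k, hk.trans ?_, r, hr⟩
  have b1 : n + 1 ≤ N := by omega
  have b2 : H ≤ N := by omega
  have b3 : 4 * m + 2 ≤ 5 * N := by omega
  have c1 : H * ((n + 1) * 8) ≤ N * (N * 8) := Nat.mul_le_mul b2 (Nat.mul_le_mul_right _ b1)
  have c2 : (n + 1) * (n + 1) * (2 * (4 * m + 2)) ≤ N * N * (2 * (5 * N)) :=
    Nat.mul_le_mul (Nat.mul_le_mul b1 b1) (Nat.mul_le_mul_left _ b3)
  have c4 : H * ((n + 1) * (n + 1) * 8) ≤ N * (N * N * 8) :=
    Nat.mul_le_mul b2 (Nat.mul_le_mul_right _ (Nat.mul_le_mul b1 b1))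
  have c3 : N ^ 2 ≤ N ^ 3 := Nat.pow_le_pow_right (by omega) (by norm_num)
  calc _ ≤ N * (N * 8) + N * N * (2 * (5 * N)) + N * (N * N * 8) :=
        Nat.add_le_add (Nat.add_le_add c1 c2) c4
    _ = 8 * N ^ 2 + 18 * N ^ 3 := by ring
    _ ≤ _ := by omega

/-- multiples of eight -/
lemma eight {t : ℕ} (ht : 1 ≤ t) :
    ∃ k ≤ 100 * (8 * t) ^ 3, ∃ r : Fin (8 * t) → ℂ, Reach k (polygon (8 * t)) r ∧ Larger r := by
  set N := 8 * t with hNd
  have hprim := root_prim (N := N) (by omega)
  set z := root N with hz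
  have hz0 : z ^ (4 * t) = -1 := by
    have h1 : (z ^ (4 * t)) ^ 2 = 1 := by
      rw [← pow_mul, show 4 * t * 2 = N by omega, hprim.pow_eq_one]
    rcases mul_self_eq_one_iff.1 ((sq _).symm.trans h1) with h2 | h2
    · exfalso
      have := (hprim.pow_eq_one_iff_dvd (4 * t)).1 h2
      have := Nat.le_of_dvd (by omega) this
      omega
    · exact h2
  have h1 := even_eight (N := N) (H := 4 * t) (z := z) (w := 1 + 2 * (1 + z ^ t + z ^ (7 * t)))
    (by omega) (by omega) hz0 rfl rfl
  have hr : z ^ t = root 8 := by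
    rw [hz]
    unfold root
    rw [← Complex.exp_nat_mul]
    congr 1
    have ht0 : (t : ℂ) ≠ 0 := by exact_mod_cast (by omega : t ≠ 0)
    rw [hNd]
    push_cast
    field_simp
  have hn : 1 < ‖1 + 2 * (1 + z ^ t + z ^ (7 * t))‖ := by
    obtain ⟨c, hc, h⟩ := root_cos (m := 8) (by norm_num)
    have h2 : z ^ (7 * t) = (root 8)⁻¹ := by
      rw [mul_comm, pow_mul, hr]
      apply eq_inv_of_mul_eq_one_left
      rw [← pow_succ]
      exact (root_prim (N := 8) (by norm_num)).pow_eq_one
    rw [h2, hr, add_assoc 1, h]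
    have h3 : (1 : ℂ) + 2 * (1 + 2 * c) = ((3 + 4 * c : ℝ) : ℂ) := by push_cast; ring
    rw [h3, Complex.norm_real, Real.norm_eq_abs, abs_of_pos (by linarith)]
    linarith
  obtain ⟨k, hk, r, hr'⟩ := finish h1 _ hn fun k hk => cfE_lt z _ hk
  refine ⟨k, hk.trans ?_, r, hr'⟩
  have c3 : N ≤ N ^ 3 := Nat.le_self_pow (by norm_num) N
  omega

/-- the dodecagon -/
lemma twelve : ∃ k ≤ 100 * 12 ^ 3, ∃ r : Fin 12 → ℂ, Reach k (polygon 12) r ∧ Larger r := by
  have hprim := root_prim (N := 12) (by norm_num)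
  set z := root 12 with hz
  have hz0 : z ^ 6 = -1 := by
    have h1 : (z ^ 6) ^ 2 = 1 := by
      rw [← pow_mul]; exact hprim.pow_eq_one
    rcases mul_self_eq_one_iff.1 ((sq _).symm.trans h1) with h2 | h2
    · exfalso
      have := (hprim.pow_eq_one_iff_dvd 6).1 h2
      norm_num at this
    · exact h2
  have hz2 : z ^ 2 ≠ -1 := fun h => by
    have : z ^ 4 = 1 := by rw [show (4 : ℕ) = 2 * 2 by norm_num, pow_mul, h]; norm_num
    have := (hprim.pow_eq_one_iff_dvd 4).1 this
    norm_num at this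
  have hrel : z ^ 4 - z ^ 2 + 1 = 0 := by
    have h1 : (z ^ 2 + 1) * (z ^ 4 - z ^ 2 + 1) = 0 := by linear_combination hz0
    rcases mul_eq_zero.1 h1 with h | h
    · exact absurd (by linear_combination h) hz2
    · exact h
  have h11 : z ^ 11 = - z ^ 5 := by
    rw [show (11 : ℕ) = 6 + 5 by norm_num, pow_add, hz0]; ring
  have hb : RB z 7 (3 + 2 * (z + z ^ 11)) := by
    have := ((((((RB.pow (z := z) 0).add 0).add 0).add 1).add 1).add 11).add 11
    convert this using 1
    ring
  have hg : RB z 7 (2 * (z + z ^ 11) - 3) := by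
    have := ((((((RB.pow (z := z) 1).add 1).add 11).add 11).sub 0).sub 0).sub 0
    convert this using 1
    ring
  have hwg : (1 + 2 * (3 + 2 * (z + z ^ 11))) * (2 * (z + z ^ 11) - 3) = 3 + 2 * (z + z ^ 11) := by
    rw [h11]
    linear_combination (8 * z ^ 4 - 16) * hz0 - 8 * hrel
  have h1 := even_A (N := 12) (H := 6) (z := z) (w := 1 + 2 * (3 + 2 * (z + z ^ 11)))
    (b := 3 + 2 * (z + z ^ 11)) (g := 2 * (z + z ^ 11) - 3) (n := 7) (n' := 7) (m := 3) (t := 2)
    (by norm_num) (by norm_num) hz0 rfl hwg hb hg (by decide) (by norm_num) (by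
      simp only [sum_range_succ, range_zero, sum_empty]
      linear_combination hrel)
  have hn : 1 < ‖1 + 2 * (3 + 2 * (z + z ^ 11))‖ := by
    obtain ⟨c, hc, h⟩ := root_cos (m := 12) (by norm_num)
    have h2 : z ^ 11 = z⁻¹ := by
      apply eq_inv_of_mul_eq_one_left
      rw [← pow_succ]
      exact hprim.pow_eq_one
    rw [h2, h]
    have h3 : (1 : ℂ) + 2 * (3 + 2 * (2 * c)) = ((7 + 8 * c : ℝ) : ℂ) := by push_cast; ring
    rw [h3, Complex.norm_real, Real.norm_eq_abs, abs_of_pos (by linarith)]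
    linarith
  obtain ⟨k, hk, r, hr'⟩ := finish h1 _ hn fun k hk => cfE_lt z _ hk
  exact ⟨k, hk.trans (by norm_num), r, hr'⟩

/-- Every regular `N`-gon, `N > 6`, can be enlarged by at most `102 N ^ 3` legal moves. -/
theorem result : ∀ N : ℕ, 6 < N → ∃ n : ℕ, n ≤ 102 * N ^ 3 ∧
    ∃ q : Fin N → ℂ, Reach n (polygon N) q ∧ Larger q := by
  intro N hN
  rcases Nat.even_or_odd N with he | ho
  · obtain ⟨e, m, hm, hNe⟩ := Nat.exists_eq_two_pow_mul_odd (n := N) (by omega)
    have he0 : e ≠ 0 := fun h => by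
      rw [h, pow_zero, one_mul] at hNe
      rw [hNe] at he
      exact (Nat.not_even_iff_odd.2 hm) he
    obtain ⟨e', rfl⟩ : ∃ e', e = e' + 1 := ⟨e - 1, by omega⟩
    by_cases hm5 : 5 ≤ m
    · subst hNe
      obtain ⟨k, hk, r, hr⟩ := even_odd_part (e := e') hm hm5
      exact ⟨k, hk.trans (Nat.mul_le_mul_right _ (by norm_num)), r, hr⟩
    · have hm13 : m = 1 ∨ m = 3 := by
        obtain ⟨j, hj⟩ := hm
        omega
      by_cases h8 : 2 ≤ e'
      · obtain ⟨e'', rfl⟩ : ∃ e'', e' = e'' + 2 := ⟨e' - 2, by omega⟩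
        have h9 : N = 8 * (2 ^ e'' * m) := by rw [hNe, pow_succ, pow_add]; ring
        have h10 : 1 ≤ 2 ^ e'' * m := by
          have := Nat.one_le_two_pow (n := e'')
          exact Nat.mul_pos this (by omega)
        rw [h9]
        obtain ⟨k, hk, r, hr⟩ := eight h10
        exact ⟨k, hk.trans (Nat.mul_le_mul_right _ (by norm_num)), r, hr⟩
      · have h12 : N = 12 := by
          have h2 : e' = 0 ∨ e' = 1 := by omega
          rcases h2 with rfl | rfl <;> rcases hm13 with rfl | rfl <;> norm_num at hNe <;> omega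
        rw [h12]
        obtain ⟨k, hk, r, hr⟩ := twelve
        exact ⟨k, hk.trans (by norm_num), r, hr⟩
  · obtain ⟨k, hk, r, hr⟩ := odd_case ho (by omega)
    exact ⟨k, hk, r, hr⟩

end Pool.Agent.Results.MP_e50cbd_co.CubicBound
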